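import Mathlib

/-!
# Hypergeometric polynomials, residue functional, Polya urn recursion (helper820)

`PP μ n = ∑ₖ C(n,k) ∏_{i<k} (n+μ-i)/(1-μ+i) Tᵏ`; `P n = PP (1/3) n`, `Ps n` = its reverse
`T^n P_n(1/T)`.
`brk α m h = Res_{T=1} T^α (T-1)^{-m} h(T) dT = ∑ₖ hₖ binom(k+α, m-1)`.
-/

namespace Pool.Agent.H820R4.CD

open Polynomial Finset

/-- generalised binomial coefficient -/
def gb (x : ℚ) (m : ℕ) : ℚ := ∏ i ∈ range m, (x - i) / (i + 1)

@[simp] theorem gb_zero (x : ℚ) : gb x 0 = 1 := by simp [gb]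

theorem gb_succ (x : ℚ) (m : ℕ) : gb x (m + 1) = gb x m * ((x - m) / (m + 1)) := by
  rw [gb, prod_range_succ]; rfl

/-- absorption -/
theorem gb_absorb (x : ℚ) (m : ℕ) : (m + 1 : ℚ) * gb (x + 1) (m + 1) = (x + 1) * gb x m := by
  induction m with
  | zero => simp [gb]
  | succ m ih =>
    rw [gb_succ (x + 1) (m + 1), gb_succ x m]
    have h1 : ((m : ℚ) + 1) ≠ 0 := by positivity
    have h2 : (((m + 1 : ℕ) : ℚ) + 1) ≠ 0 := by positivity
    have : gb (x + 1) (m + 1) = (x + 1) * gb x m / (m + 1) := by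
      field_simp; linarith [ih]
    rw [this]
    push_cast at h2 ⊢
    field_simp
    ring

/-- Pascal -/
theorem gb_pascal (x : ℚ) (m : ℕ) : gb (x + 1) (m + 1) = gb x (m + 1) + gb x m := by
  have h1 : ((m : ℚ) + 1) ≠ 0 := by positivity
  have h := gb_absorb x m
  have : gb (x + 1) (m + 1) = (x + 1) * gb x m / (m + 1) := by
    field_simp; linarith [h]
  rw [this, gb_succ]
  field_simp
  ring

/-- coefficient functional -/
def bc (α : ℚ) (m k : ℕ) : ℚ := if m = 0 then 0 else gb (k + α) (m - 1)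

@[simp] theorem bc_zero (α : ℚ) (k : ℕ) : bc α 0 k = 0 := by simp [bc]

theorem bc_succ (α : ℚ) (m k : ℕ) : bc α (m + 1) k = gb (k + α) m := by simp [bc]

theorem bc_pascal (α : ℚ) (m k : ℕ) : bc α (m + 1) (k + 1) - bc α (m + 1) k = bc α m k := by
  rcases m with _ | m
  · simp [bc]
  · rw [bc_succ, bc_succ, bc_succ]
    have : ((k + 1 : ℕ) : ℚ) + α = (k + α) + 1 := by push_cast; ring
    rw [this, gb_pascal]; ring

theorem bc_absorb (α : ℚ) (m k : ℕ) :
    (m : ℚ) * bc α (m + 1) (k + 1) = (k + 1 + α) * bc α m k := by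
  rcases m with _ | m
  · simp
  · rw [bc_succ, bc_succ]
    have : ((k + 1 : ℕ) : ℚ) + α = (k + α) + 1 := by push_cast; ring
    rw [this]
    have := gb_absorb (k + α) m
    push_cast
    rw [this]; ring

/-- `Res_{T=1} T^α (T-1)^{-m} h(T) dT` -/
noncomputable def brk (α : ℚ) (m : ℕ) : ℚ[X] →ₗ[ℚ] ℚ :=
  Polynomial.lsum fun k => (bc α m k) • LinearMap.id

theorem brk_monomial (α : ℚ) (m k : ℕ) (a : ℚ) : brk α m (monomial k a) = a * bc α m k := by
  simp [brk, Polynomial.lsum_apply, Polynomial.sum_monomial_index, mul_comm]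

theorem brk_eq_sum (α : ℚ) (m N : ℕ) (h : ℚ[X]) (hN : h.natDegree < N) :
    brk α m h = ∑ k ∈ range N, h.coeff k * bc α m k := by
  conv_lhs => rw [h.as_sum_range' N hN]
  rw [map_sum]
  exact sum_congr rfl fun k _ => brk_monomial _ _ _ _

theorem brk_X_pow (α : ℚ) (m k : ℕ) : brk α m (X ^ k) = bc α m k := by
  rw [← monomial_one_right_eq_X_pow, brk_monomial, one_mul]

@[simp] theorem brk_zero_left (α : ℚ) (h : ℚ[X]) : brk α 0 h = 0 := by
  have := brk_eq_sum α 0 (h.natDegree + 1) h (Nat.lt_succ_self _)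
  rw [this]; simp

theorem brk_sub_one (α : ℚ) (m : ℕ) (h : ℚ[X]) : brk α (m + 1) ((X - 1) * h) = brk α m h := by
  induction h using Polynomial.induction_on' with
  | add p q hp hq => rw [mul_add, map_add, map_add, hp, hq]
  | monomial n a =>
    have h := bc_pascal α m n
    rw [sub_mul, one_mul, map_sub, X_mul_monomial, brk_monomial, brk_monomial, brk_monomial]
    linear_combination a * h

theorem brk_deriv (α : ℚ) (m : ℕ) (g : ℚ[X]) :
    brk α (m + 1) (C (α + 1) * ((X - 1) * g) + (X - 1) * (X * derivative g)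
      - C (m : ℚ) * (X * g)) = 0 := by
  induction g using Polynomial.induction_on' with
  | add p q hp hq =>
    have e : (C (α + 1) * ((X - 1) * (p + q)) + (X - 1) * (X * derivative (p + q))
      - C (m : ℚ) * (X * (p + q))) =
      (C (α + 1) * ((X - 1) * p) + (X - 1) * (X * derivative p) - C (m : ℚ) * (X * p)) +
      (C (α + 1) * ((X - 1) * q) + (X - 1) * (X * derivative q) - C (m : ℚ) * (X * q)) := by
      rw [derivative_add]; ring
    rw [e, map_add, hp, hq, add_zero]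
  | monomial n a =>
    have e1 : X * derivative (monomial n a) = monomial n (a * n) := by
      rw [derivative_monomial]
      rcases n with _ | n
      · simp
      · rw [X_mul_monomial]; simp
    rw [e1, map_sub, map_add, ← smul_eq_C_mul, map_smul, brk_sub_one, brk_sub_one,
      ← smul_eq_C_mul, map_smul, X_mul_monomial, brk_monomial, brk_monomial, brk_monomial,
      smul_eq_mul, smul_eq_mul]
    have := bc_absorb α m n
    linear_combination (-a) * this

/-- coefficients of the hypergeometric polynomial -/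
def pc (μ : ℚ) (n k : ℕ) : ℚ := (n.choose k : ℚ) * ∏ i ∈ range k, ((n : ℚ) + μ - i) / (1 - μ + i)

noncomputable def PP (μ : ℚ) (n : ℕ) : ℚ[X] := ∑ k ∈ range (n + 1), monomial k (pc μ n k)

theorem coeff_PP (μ : ℚ) (n k : ℕ) : (PP μ n).coeff k = pc μ n k := by
  rw [PP, finsetSum_coeff]
  simp only [coeff_monomial]
  rw [Finset.sum_ite_eq' (range (n + 1)) k]
  split_ifs with h
  · rfl
  · have : n < k := by simpa using h
    simp [pc, Nat.choose_eq_zero_of_lt this]

theorem pc_zero (μ : ℚ) (n : ℕ) : pc μ n 0 = 1 := by simp [pc]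

theorem pc_r1 (μ : ℚ) (hμ : ∀ i : ℕ, (1 - μ + i : ℚ) ≠ 0) (n k : ℕ) :
    (k + 1 : ℚ) * (1 - μ + k) * pc μ n (k + 1) = (n - k) * (n + μ - k) * pc μ n k := by
  have h := hμ k
  have e : ((n.choose (k + 1) : ℕ) : ℚ) * (k + 1) = (n.choose k : ℚ) * (n - k) := by
    rcases le_or_gt k n with hk | hk
    · have := Nat.choose_succ_right_eq n k
      have h2 : ((n - k : ℕ) : ℚ) = (n : ℚ) - k := by rw [Nat.cast_sub hk]
      rw [← h2]
      exact_mod_cast this
    · rw [Nat.choose_eq_zero_of_lt hk, Nat.choose_eq_zero_of_lt (Nat.lt_succ_of_lt hk)]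
      simp
  unfold pc
  rw [prod_range_succ]
  field_simp
  linear_combination (∏ i ∈ range k, ((n : ℚ) + μ - i) / (1 - μ + i)) * (n + μ - k) * e

theorem pc_r2 (μ : ℚ) (hμ : ∀ i : ℕ, (1 - μ + i : ℚ) ≠ 0) (n k : ℕ) :
    (k + 1 : ℚ) * (1 - μ + k) * pc μ (n + 1) (k + 1) = (n + 1) * (n + 1 + μ) * pc μ n k := by
  have h := hμ k
  have e : (((n + 1).choose (k + 1) : ℕ) : ℚ) * (k + 1) = (n + 1) * (n.choose k : ℚ) := by
    have := Nat.add_one_mul_choose_eq n k
    exact_mod_cast this.symm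
  have e2 : ∏ i ∈ range (k + 1), (((n + 1 : ℕ) : ℚ) + μ - i) / (1 - μ + i) =
      (∏ i ∈ range k, ((n : ℚ) + μ - i) / (1 - μ + i)) * ((n + 1 + μ) / (1 - μ + k)) := by
    rw [prod_div_distrib, prod_div_distrib, prod_range_succ', prod_range_succ (fun i : ℕ => 1 - μ + (i : ℚ))]
    have : ∀ i ∈ range k, (((n + 1 : ℕ) : ℚ) + μ - ((i + 1 : ℕ) : ℚ)) = (n : ℚ) + μ - i := by
      intro i _; push_cast; ring
    rw [prod_congr rfl this]
    push_cast
    simp only [sub_zero]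
    rw [div_mul_div_comm]
  unfold pc
  rw [e2]
  field_simp
  linear_combination (∏ i ∈ range k, ((n : ℚ) + μ - i) / (1 - μ + i)) * (n + 1 + μ) * e

theorem PP_D1 (μ : ℚ) (hμ : ∀ i : ℕ, (1 - μ + i : ℚ) ≠ 0) (n : ℕ) :
    X * derivative (PP μ (n + 1)) =
      C (((n : ℚ) + 1 + μ) / 2) * (PP μ (n + 1) + (X - 1) * PP μ n) := by
  ext k
  rw [coeff_C_mul, coeff_add, sub_mul, one_mul, coeff_sub]
  rcases k with _ | k
  · simp [coeff_PP, pc_zero]
  · rw [coeff_X_mul, coeff_derivative, coeff_X_mul, coeff_PP, coeff_PP, coeff_PP]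
    have h1 := pc_r1 μ hμ n k
    have h2 := pc_r2 μ hμ n k
    have hk := hμ k
    have hD : ((k + 1 : ℚ) * (1 - μ + k)) ≠ 0 := mul_ne_zero (by positivity) hk
    have g1 : pc μ n (k + 1) = (n - k) * (n + μ - k) * pc μ n k / ((k + 1 : ℚ) * (1 - μ + k)) := by
      rw [eq_div_iff hD]; linarith
    have g2 : pc μ (n + 1) (k + 1) = (n + 1) * (n + 1 + μ) * pc μ n k / ((k + 1 : ℚ) * (1 - μ + k)) := by
      rw [eq_div_iff hD]; linarith
    rw [g1, g2]
    field_simp
    ring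

theorem PP_rec (μ : ℚ) (hμ : ∀ i : ℕ, (1 - μ + i : ℚ) ≠ 0) (n : ℕ) :
    C ((n : ℚ) + 2 - μ) * PP μ (n + 2) + C ((n : ℚ) + 1 + μ) * ((X - 1) * ((X - 1) * PP μ n)) =
      C (2 * (n : ℚ) + 3) * ((1 + X) * PP μ (n + 1)) := by
  ext k
  have ex : ∀ (h : ℚ[X]), (X - 1) * ((X - 1) * h) = X * (X * h) - C 2 * (X * h) + h := by
    intro h
    have : (C 2 : ℚ[X]) = 2 := map_ofNat C 2
    rw [this]; ring
  rw [ex, add_mul, one_mul]
  rcases k with _ | _ | k
  · simp only [coeff_add, coeff_sub, mul_coeff_zero, coeff_C_zero, coeff_X_zero, coeff_PP, pc_zero]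
    ring
  · have hk := hμ 0
    have h1 := pc_r1 μ hμ n 0
    have h2 := pc_r2 μ hμ n 0
    have h3 := pc_r2 μ hμ (n + 1) 0
    rw [pc_zero] at h1 h2 h3
    simp only [zero_add, coeff_add, coeff_sub, coeff_C_mul]
    rw [show (1:ℕ) = 0 + 1 from rfl]
    simp only [coeff_X_mul, coeff_PP, pc_zero, mul_coeff_zero, coeff_X_zero]
    norm_num at h1 h2 h3 hk ⊢
    have g1 : pc μ n 1 = n * (n + μ) / (1 - μ) := by
      rw [eq_div_iff hk]; linarith
    have g2 : pc μ (n + 1) 1 = (n + 1) * (n + 1 + μ) / (1 - μ) := by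
      rw [eq_div_iff hk]; linarith
    have g3 : pc μ (n + 2) 1 = (n + 1 + 1) * (n + 1 + 1 + μ) / (1 - μ) := by
      rw [eq_div_iff hk]; linarith
    rw [g1, g2, g3]
    field_simp
    ring
  · have hk := hμ k
    have hk1 := hμ (k + 1)
    have a1 := pc_r1 μ hμ n k
    have a2 := pc_r1 μ hμ n (k + 1)
    have a3 := pc_r2 μ hμ n k
    have a4 := pc_r2 μ hμ n (k + 1)
    have a5 := pc_r2 μ hμ (n + 1) (k + 1)
    simp only [coeff_add, coeff_sub, coeff_C_mul, coeff_X_mul, coeff_PP]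
    push_cast at hk1 a2 a4 a5 ⊢
    have hD : ((k + 1 : ℚ) * (1 - μ + k)) ≠ 0 := mul_ne_zero (by positivity) hk
    have hD1 : ((k + 1 + 1 : ℚ) * (1 - μ + (k + 1))) ≠ 0 := mul_ne_zero (by positivity) hk1
    have g1 : pc μ n (k + 1) = (n - k) * (n + μ - k) * pc μ n k / ((k + 1 : ℚ) * (1 - μ + k)) := by
      rw [eq_div_iff hD]; linarith
    have g2 : pc μ n (k + 1 + 1) = (n - (k + 1)) * (n + μ - (k + 1)) * pc μ n (k + 1) /
        ((k + 1 + 1 : ℚ) * (1 - μ + (k + 1))) := by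
      rw [eq_div_iff hD1]; linarith
    have g3 : pc μ (n + 1) (k + 1) = (n + 1) * (n + 1 + μ) * pc μ n k / ((k + 1 : ℚ) * (1 - μ + k)) := by
      rw [eq_div_iff hD]; linarith
    have g4 : pc μ (n + 1) (k + 1 + 1) = (n + 1) * (n + 1 + μ) * pc μ n (k + 1) /
        ((k + 1 + 1 : ℚ) * (1 - μ + (k + 1))) := by
      rw [eq_div_iff hD1]; linarith
    have g5 : pc μ (n + 2) (k + 1 + 1) = (n + 1 + 1) * (n + 1 + 1 + μ) * pc μ (n + 1) (k + 1) /
        ((k + 1 + 1 : ℚ) * (1 - μ + (k + 1))) := by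
      rw [eq_div_iff hD1]; linarith
    rw [g5, g4, g2, g3, g1]
    field_simp
    ring

end Pool.Agent.H820R4.CD
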