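import Pool.Agent.H820R4.CD.A

/-!
# Pade lemma, Polya urn recursion and boundary values (helper820)
-/

namespace Pool.Agent.H820R4.CD

open Polynomial Finset

theorem h13 (i : ℕ) : (1 - (1/3 : ℚ) + i) ≠ 0 := by positivity
theorem hm13 (i : ℕ) : (1 - (-1/3 : ℚ) + i) ≠ 0 := by positivity

/-- `P_n` -/
noncomputable def P (n : ℕ) : ℚ[X] := PP (1/3) n

/-- the constant `∏_{i<n} (i+4/3)/(i+2/3)` -/
def kap (n : ℕ) : ℚ := ∏ i ∈ range n, ((i : ℚ) + 4/3) / (i + 2/3)

/-- `P*_n` -/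
noncomputable def Ps (n : ℕ) : ℚ[X] := C (kap n) * PP (-1/3) n

theorem kap_zero : kap 0 = 1 := by simp [kap]
theorem kap_succ (n : ℕ) : kap (n + 1) * ((n : ℚ) + 2/3) = kap n * (n + 4/3) := by
  rw [kap, prod_range_succ]
  have : ((n : ℚ) + 2/3) ≠ 0 := by positivity
  change kap n * _ * _ = _
  field_simp

theorem P_D1 (n : ℕ) : X * derivative (P (n + 1)) =
    C (((n : ℚ) + 1 + 1/3) / 2) * (P (n + 1) + (X - 1) * P n) := PP_D1 _ h13 n

theorem P_rec (n : ℕ) :
    C ((n : ℚ) + 2 - 1/3) * P (n + 2) + C ((n : ℚ) + 1 + 1/3) * ((X - 1) * ((X - 1) * P n)) =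
      C (2 * (n : ℚ) + 3) * ((1 + X) * P (n + 1)) := PP_rec _ h13 n

theorem Ps_D2 (n : ℕ) : X * derivative (Ps (n + 1)) =
    C (((n : ℚ) + 1 - 1/3) / 2) * Ps (n + 1) + C (((n : ℚ) + 1 + 1/3) / 2) * ((X - 1) * Ps n) := by
  have h := PP_D1 (-1/3) hm13 n
  have hk := kap_succ n
  rw [Ps, derivative_C_mul, mul_left_comm, h, Ps]
  have e : (C (((n : ℚ) + 1 + 1/3) / 2) : ℚ[X]) * C (kap n) =
      C (kap (n + 1)) * C (((n : ℚ) + 1 - 1/3) / 2) := by
    rw [← C_mul, ← C_mul]; congr 1; linarith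
  have e1 : ((n : ℚ) + 1 + -1/3) / 2 = ((n : ℚ) + 1 - 1/3) / 2 := by ring
  rw [e1]
  linear_combination (-((X - 1) * PP (-1/3) n)) * e

theorem P_zero : P 0 = 1 := by
  simp [P, PP, pc]
theorem Ps_zero : Ps 0 = 1 := by
  simp [Ps, PP, pc, kap]

theorem coeff_P_zero (n : ℕ) : (P n).coeff 0 = 1 := by
  rw [P, coeff_PP, pc_zero]

theorem natDegree_PP_le (μ : ℚ) (n : ℕ) : (PP μ n).natDegree ≤ n := by
  rw [natDegree_le_iff_coeff_eq_zero]
  intro k hk
  rw [coeff_PP, pc, Nat.choose_eq_zero_of_lt hk]; simp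

theorem natDegree_P_le (n : ℕ) : (P n).natDegree ≤ n := natDegree_PP_le _ _
theorem natDegree_Ps_le (n : ℕ) : (Ps n).natDegree ≤ n :=
  (natDegree_C_mul_le _ _).trans (natDegree_PP_le _ _)

/-- the reversal relation `Ps n = T^n P_n(1/T)`, coefficientwise -/
theorem coeff_Ps (n k : ℕ) (hk : k ≤ n) : (Ps n).coeff k = (P n).coeff (n - k) := by
  -- downward: both satisfy the same ratio relation in k, equal at k = 0
  induction k with
  | zero =>
    rw [Ps, coeff_C_mul, coeff_PP, pc_zero, P, coeff_PP, pc, Nat.sub_zero, Nat.choose_self, kap]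
    simp only [mul_one, Nat.cast_one, one_mul]
    rw [prod_div_distrib, prod_div_distrib]
    congr 1
    · rw [← prod_range_reflect]
      refine prod_congr rfl fun i hi => ?_
      have : i < n := by simpa using hi
      have h2 : ((n - 1 - i : ℕ) : ℚ) = (n : ℚ) - 1 - i := by
        rw [Nat.sub_sub, Nat.cast_sub (by omega)]; push_cast; ring
      rw [h2]; ring
    · refine prod_congr rfl fun i _ => ?_
      ring
  | succ k ih =>
    have ih := ih (by omega)
    obtain ⟨l, rfl⟩ : ∃ l, n = l + (k + 1) := ⟨n - (k + 1), by omega⟩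
    have e1 : l + (k + 1) - k = l + 1 := by omega
    have e2 : l + (k + 1) - (k + 1) = l := by omega
    rw [e1] at ih
    rw [e2]
    rw [Ps, coeff_C_mul, coeff_PP] at ih ⊢
    rw [P, coeff_PP] at ih ⊢
    have r1 := pc_r1 (-1/3) hm13 (l + (k + 1)) k
    have r2 := pc_r1 (1/3) h13 (l + (k + 1)) l
    push_cast at r1 r2
    have hD : ((k : ℚ) + 1) * (k + 4/3) ≠ 0 := by positivity
    have A1 : ((k : ℚ) + 1) * (k + 4/3) * (kap (l + (k + 1)) * pc (-1/3) (l + (k + 1)) (k + 1)) =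
        (l + 1) * (l + 1 - 1/3) * (kap (l + (k + 1)) * pc (-1/3) (l + (k + 1)) k) := by
      linear_combination (kap (l + (k + 1))) * r1
    rw [ih] at A1
    have A2 : ((l : ℚ) + 1) * (l + 1 - 1/3) * pc (1/3) (l + (k + 1)) (l + 1) =
        (k + 1) * (k + 4/3) * pc (1/3) (l + (k + 1)) l := by
      linear_combination r2
    rw [A2] at A1
    exact mul_left_cancel₀ hD A1

theorem coeff_Ps_top (n : ℕ) : (Ps n).coeff n = 1 := by
  rw [coeff_Ps n n le_rfl, Nat.sub_self, coeff_P_zero]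

theorem eval_one_Ps (n : ℕ) : (Ps n).eval 1 = (P n).eval 1 := by
  rw [eval_eq_sum_range' (n := n + 1) (by have := natDegree_Ps_le n; omega),
    eval_eq_sum_range' (n := n + 1) (by have := natDegree_P_le n; omega)]
  simp only [one_pow, mul_one]
  rw [← sum_range_reflect]
  refine sum_congr rfl fun k hk => ?_
  have : k ≤ n := by simpa [Nat.lt_succ_iff] using hk
  rw [show n + 1 - 1 - k = n - k by omega, coeff_Ps n (n - k) (Nat.sub_le _ _)]
  congr 1; omega

theorem brk_one (α : ℚ) (h : ℚ[X]) : brk α 1 h = h.eval 1 := by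
  rw [brk_eq_sum α 1 (h.natDegree + 1) h (Nat.lt_succ_self _), eval_eq_sum_range]
  refine sum_congr rfl fun k _ => ?_
  simp [bc]

theorem brk_mul_C (α : ℚ) (m : ℕ) (c : ℚ) (h : ℚ[X]) : brk α m (C c * h) = c * brk α m h := by
  rw [← smul_eq_C_mul, map_smul, smul_eq_mul]

/-- Pade lemma: `P_n = T^(1/3) P*_n mod (T-1)^(2n+1)`. -/
theorem pade (n : ℕ) : ∀ (m : ℕ), m ≤ 2 * n + 1 → ∀ (α : ℚ) (h : ℚ[X]),
    brk α m (h * P n) = brk (α + 1/3) m (h * Ps n) := by
  induction n with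
  | zero =>
    intro m hm α h
    rw [P_zero, Ps_zero]
    rcases m with _ | _ | m
    · simp
    · simp [brk_one]
    · omega
  | succ n ihn =>
    intro m
    induction m with
    | zero => intro _ α h; simp
    | succ m ihm =>
      intro hm α h
      rcases m with _ | m
      · simp [brk_one, eval_one_Ps]
      · have hm1 : m + 1 ≤ 2 * (n + 1) + 1 := by omega
        have hm2 : m ≤ 2 * n + 1 := by omega
        have key : ∀ g : ℚ[X], brk α (m + 1 + 1) (X * (g * P (n + 1))) =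
            brk (α + 1/3) (m + 1 + 1) (X * (g * Ps (n + 1))) := by
          intro g
          have d1 := brk_deriv α (m + 1) (g * P (n + 1))
          have d2 := brk_deriv (α + 1/3) (m + 1) (g * Ps (n + 1))
          have e1 : X * derivative (g * P (n + 1)) = (X * derivative g) * P (n + 1) +
              C (((n : ℚ) + 1 + 1/3) / 2) * (g * P (n + 1)) +
              C (((n : ℚ) + 1 + 1/3) / 2) * ((X - 1) * (g * P n)) := by
            rw [derivative_mul]
            linear_combination g * P_D1 n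
          have e2 : X * derivative (g * Ps (n + 1)) = (X * derivative g) * Ps (n + 1) +
              C (((n : ℚ) + 1 - 1/3) / 2) * (g * Ps (n + 1)) +
              C (((n : ℚ) + 1 + 1/3) / 2) * ((X - 1) * (g * Ps n)) := by
            rw [derivative_mul]
            linear_combination g * Ps_D2 n
          rw [map_sub, map_add, brk_mul_C, brk_mul_C, brk_sub_one, brk_sub_one, e1, map_add, map_add,
            brk_mul_C, brk_mul_C, brk_sub_one] at d1
          rw [map_sub, map_add, brk_mul_C, brk_mul_C, brk_sub_one, brk_sub_one, e2, map_add, map_add,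
            brk_mul_C, brk_mul_C, brk_sub_one] at d2
          have i1 := ihm hm1 α g
          have i2 := ihm hm1 α (X * derivative g)
          have i3 := ihn m hm2 α g
          rw [i1, i2, i3] at d1
          have hne : (((m + 1 : ℕ) : ℚ)) ≠ 0 := by positivity
          apply mul_left_cancel₀ hne
          linear_combination d2 - d1
        have h1 := key h
        have h2 := ihm hm1 α h
        have e3 : h * P (n + 1) = X * (h * P (n + 1)) - (X - 1) * (h * P (n + 1)) := by ring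
        have e4 : h * Ps (n + 1) = X * (h * Ps (n + 1)) - (X - 1) * (h * Ps (n + 1)) := by ring
        rw [e3, e4, map_sub, map_sub, brk_sub_one, brk_sub_one, h1, h2]

theorem gb_eq_zero (k m : ℕ) (h : k < m) : gb (k : ℚ) m = 0 := by
  rw [gb]
  exact prod_eq_zero (mem_range.2 h) (by simp)

theorem gb_self (m : ℕ) : gb (m : ℚ) m = 1 := by
  induction m with
  | zero => simp
  | succ m ih =>
    have h := gb_absorb (m : ℚ) m
    have h1 : ((m : ℚ) + 1) ≠ 0 := by positivity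
    rw [ih, mul_one] at h
    push_cast
    exact mul_left_cancel₀ h1 (by rw [h, mul_one])

theorem gb_neg_one (m : ℕ) : gb (-1) m = (-1) ^ m := by
  induction m with
  | zero => simp
  | succ m ih =>
    rw [gb_succ, ih, pow_succ]
    have h1 : ((m : ℚ) + 1) ≠ 0 := by positivity
    field_simp
    ring

theorem bd_e (j : ℕ) : brk (-2/3) (2 * j + 1) (P j * Ps j) = 1 := by
  have h := pade j (2 * j + 1) le_rfl (-1) (P j)
  have e : (-1 : ℚ) + 1/3 = -2/3 := by norm_num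
  rw [e] at h
  rw [← h]
  rw [brk_eq_sum (-1) (2 * j + 1) (2 * j + 1) (P j * P j)
    (by have := natDegree_P_le j; have := natDegree_mul_le (p := P j) (q := P j); omega)]
  rw [sum_eq_single 0]
  · rw [mul_coeff_zero, coeff_P_zero, bc_succ]
    simp [gb_neg_one]
  · intro k hk hk0
    have hk : k < 2 * j + 1 := by simpa using hk
    obtain ⟨l, rfl⟩ : ∃ l, k = l + 1 := ⟨k - 1, by omega⟩
    rw [bc_succ]
    have : ((l + 1 : ℕ) : ℚ) + -1 = l := by push_cast; ring
    rw [this, gb_eq_zero l (2 * j) (by omega), mul_zero]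
  · intro h0; simp at h0

theorem bd_f (j : ℕ) : brk (-2/3) (2 * j + 1) (P j * P j) = 1 := by
  have h := pade j (2 * j + 1) le_rfl (-2/3) (P j)
  have h2 := pade j (2 * j + 1) le_rfl (-2/3 + 1/3) (Ps j)
  rw [h, mul_comm (P j) (Ps j), h2]
  have e : (-2/3 : ℚ) + 1/3 + 1/3 = 0 := by norm_num
  rw [e]
  rw [brk_eq_sum 0 (2 * j + 1) (2 * j + 1) (Ps j * Ps j)
    (by have := natDegree_Ps_le j; have := natDegree_mul_le (p := Ps j) (q := Ps j); omega)]
  rw [sum_eq_single (2 * j)]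
  · rw [bc_succ, add_zero, gb_self, two_mul,
      coeff_mul_add_eq_of_natDegree_le (natDegree_Ps_le j) (natDegree_Ps_le j), coeff_Ps_top]
    norm_num
  · intro k hk hk0
    have hk : k < 2 * j + 1 := by simpa using hk
    rw [bc_succ, add_zero, gb_eq_zero k (2 * j) (by omega), mul_zero]
  · intro h0; simp at h0

/-- `J(i,j,c)` -/
noncomputable def J (i j c : ℕ) : ℚ := brk (-2/3) (i + j + c + 1) (P i * Ps j * P c)

noncomputable def S (i j c : ℕ) : ℚ := brk (-2/3) (i + j + c + 2) ((1 + X) * (P i * Ps j * P c))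

noncomputable def jj (i j : ℕ) : ℚ := J i j (i + j + 1)

/-- recurrence of `P_c` -/
theorem S_rec_c (i j c : ℕ) : (2 * (c : ℚ) + 3) * S i j (c + 1) =
    (c + 1 + 2/3) * J i j (c + 2) + (c + 1 + 1/3) * J i j c := by
  have h := P_rec c
  have e : C (2 * (c : ℚ) + 3) * ((1 + X) * (P i * Ps j * P (c + 1))) =
      C ((c : ℚ) + 2 - 1/3) * (P i * Ps j * P (c + 2)) +
      C ((c : ℚ) + 1 + 1/3) * ((X - 1) * ((X - 1) * (P i * Ps j * P c))) := by
    linear_combination (-(P i * Ps j)) * h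
  have h2 := congrArg (brk (-2/3) (i + j + c + 3)) e
  rw [brk_mul_C, map_add, brk_mul_C, brk_mul_C] at h2
  rw [show i + j + c + 3 = (i + j + c + 1) + 1 + 1 by ring, brk_sub_one, brk_sub_one] at h2
  rw [S, J, J, show i + j + (c + 1) + 2 = (i + j + c + 1) + 1 + 1 by ring,
    show i + j + (c + 2) + 1 = (i + j + c + 1) + 1 + 1 by ring]
  linear_combination h2

/-- derivative relation, all indices positive -/
theorem D_main (i j c : ℕ) :
    ((i : ℚ) + 1 + (j + 1) + (c + 1) + 1) * S (i + 1) (j + 1) (c + 1) =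
    (i + 1 + 1/3) * J i (j + 1) (c + 1) + (j + 1 + 1/3) * J (i + 1) j (c + 1) +
      (c + 1 + 1/3) * J (i + 1) (j + 1) c := by
  set g := P (i + 1) * Ps (j + 1) * P (c + 1) with hg
  have d := brk_deriv (-2/3) (i + j + c + 4) g
  have e : X * derivative g =
      C (((i : ℚ) + 1 + 1/3) / 2 + ((j : ℚ) + 1 - 1/3) / 2 + ((c : ℚ) + 1 + 1/3) / 2) * g +
      (X - 1) * (C (((i : ℚ) + 1 + 1/3) / 2) * (P i * Ps (j + 1) * P (c + 1)) +
      C (((j : ℚ) + 1 + 1/3) / 2) * (P (i + 1) * Ps j * P (c + 1)) +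
      C (((c : ℚ) + 1 + 1/3) / 2) * (P (i + 1) * Ps (j + 1) * P c)) := by
    rw [hg, derivative_mul, derivative_mul, C_add, C_add]
    linear_combination (Ps (j + 1) * P (c + 1)) * P_D1 i + (P (i + 1) * P (c + 1)) * Ps_D2 j +
      (P (i + 1) * Ps (j + 1)) * P_D1 c
  have e2 : C ((-2/3 : ℚ) + 1) * ((X - 1) * g) + (X - 1) * (X * derivative g) -
      C (((i + j + c + 4 : ℕ) : ℚ)) * (X * g) =
      C (-(((i : ℚ) + 1 + (j + 1) + (c + 1) + 1)) / 2) * ((1 + X) * g) +
      (X - 1) * ((X - 1) * (C (((i : ℚ) + 1 + 1/3) / 2) * (P i * Ps (j + 1) * P (c + 1)) +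
      C (((j : ℚ) + 1 + 1/3) / 2) * (P (i + 1) * Ps j * P (c + 1)) +
      C (((c : ℚ) + 1 + 1/3) / 2) * (P (i + 1) * Ps (j + 1) * P c))) := by
    rw [e]
    have c1 : C ((-2/3 : ℚ) + 1) + C (((i : ℚ) + 1 + 1/3) / 2 + ((j : ℚ) + 1 - 1/3) / 2 + ((c : ℚ) + 1 + 1/3) / 2)
        = C (((i : ℚ) + 1 + (j + 1) + (c + 1) + 1) / 2) := by
      rw [← C_add]; congr 1; ring
    have c2 : C (((i + j + c + 4 : ℕ) : ℚ)) = C (((i : ℚ) + 1 + (j + 1) + (c + 1) + 1) / 2) +
        C (((i : ℚ) + 1 + (j + 1) + (c + 1) + 1) / 2) := by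
      rw [← C_add]; congr 1; push_cast; ring
    have c3 : (C (-(((i : ℚ) + 1 + (j + 1) + (c + 1) + 1)) / 2) : ℚ[X]) =
        - C (((i : ℚ) + 1 + (j + 1) + (c + 1) + 1) / 2) := by
      rw [← C_neg]; congr 1; ring
    rw [c2, c3]
    linear_combination ((X - 1) * g) * c1
  rw [e2, map_add, brk_mul_C, brk_sub_one, show i + j + c + 4 = (i + j + c + 3) + 1 by ring,
    brk_sub_one, map_add, map_add, brk_mul_C, brk_mul_C, brk_mul_C] at d
  rw [S, J, J, J, show i + 1 + (j + 1) + (c + 1) + 2 = (i + j + c + 3) + 1 + 1 by ring,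
    show i + (j + 1) + (c + 1) + 1 = i + j + c + 3 by ring,
    show i + 1 + j + (c + 1) + 1 = i + j + c + 3 by ring,
    show i + 1 + (j + 1) + c + 1 = i + j + c + 3 by ring, ← hg]
  linear_combination (-2) * d

/-- **Polya urn recursion** -/
theorem urn (i j : ℕ) : ((i : ℚ) + 1 + (j + 1) + 2/3) * jj (i + 1) (j + 1) =
    (i + 1 + 1/3) * jj i (j + 1) + (j + 1 + 1/3) * jj (i + 1) j := by
  have h1 := D_main i j (i + j + 1)
  have h2 := S_rec_c (i + 1) (j + 1) (i + j + 1)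
  rw [jj, jj, jj, show i + 1 + (j + 1) + 1 = i + j + 1 + 2 by ring,
    show i + (j + 1) + 1 = i + j + 1 + 1 by ring, show i + 1 + j + 1 = i + j + 1 + 1 by ring]
  push_cast at h1 h2 ⊢
  linear_combination h1 - h2

theorem jj_zero_zero : jj 0 0 = 0 := by
  rw [jj, J, P_zero, Ps_zero]
  have : P 1 = C 1 + C 2 * X := by
    rw [P, PP, sum_range_succ, sum_range_one]
    simp [pc, ← C_mul_X_eq_monomial]
    norm_num
  rw [show 0 + 0 + 1 = 1 from rfl, this, one_mul, one_mul, map_add, brk_mul_C,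
    show (C (1:ℚ) : ℚ[X]) = X ^ 0 by simp, show (X : ℚ[X]) = X ^ 1 by simp,
    ← pow_mul, brk_X_pow, brk_X_pow]
  norm_num [bc, gb]

/-- boundary, `i = 0` -/
theorem bd0j (j : ℕ) : ((j : ℚ) + 1 + 2/3) * jj 0 (j + 1) = (j + 1 + 1/3) * jj 0 j - 1/3 := by
  set g := Ps (j + 1) * P (j + 1) with hg
  have d := brk_deriv (-2/3) (2 * j + 3) g
  have e : X * derivative g =
      C ((j : ℚ) + 1) * g +
      (X - 1) * (C (((j : ℚ) + 1 + 1/3) / 2) * (Ps j * P (j + 1)) +
      C (((j : ℚ) + 1 + 1/3) / 2) * (Ps (j + 1) * P j)) := by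
    have c0 : (C ((j : ℚ) + 1) : ℚ[X]) = C (((j : ℚ) + 1 - 1/3) / 2) + C (((j : ℚ) + 1 + 1/3) / 2) := by
      rw [← C_add]; congr 1; ring
    rw [hg, derivative_mul, c0]
    linear_combination (P (j + 1)) * Ps_D2 j + (Ps (j + 1)) * P_D1 j
  have e2 : C ((-2/3 : ℚ) + 1) * ((X - 1) * g) + (X - 1) * (X * derivative g) -
      C (((2 * j + 3 : ℕ) : ℚ)) * (X * g) =
      C (-((2 * (j : ℚ) + 3)) / 2) * ((1 + X) * g) + (X - 1) * (C (-1/6 : ℚ) * g) +
      (X - 1) * ((X - 1) * (C (((j : ℚ) + 1 + 1/3) / 2) * (Ps j * P (j + 1)) +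
      C (((j : ℚ) + 1 + 1/3) / 2) * (Ps (j + 1) * P j))) := by
    rw [e]
    have c1 : C ((-2/3 : ℚ) + 1) + C ((j : ℚ) + 1)
        = C ((2 * (j : ℚ) + 3) / 2) + C (-1/6 : ℚ) := by
      rw [← C_add, ← C_add]; congr 1; ring
    have c2 : C (((2 * j + 3 : ℕ) : ℚ)) = C ((2 * (j : ℚ) + 3) / 2) +
        C ((2 * (j : ℚ) + 3) / 2) := by
      rw [← C_add]; congr 1; push_cast; ring
    have c3 : (C (-((2 * (j : ℚ) + 3)) / 2) : ℚ[X]) =
        - C ((2 * (j : ℚ) + 3) / 2) := by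
      rw [← C_neg]; congr 1; ring
    rw [c2, c3]
    linear_combination ((X - 1) * g) * c1
  have he := bd_e (j + 1)
  rw [e2, map_add, map_add, brk_mul_C, brk_sub_one, brk_mul_C, brk_sub_one,
    show 2 * j + 3 = (2 * j + 2) + 1 by ring,
    brk_sub_one, map_add, brk_mul_C, brk_mul_C] at d
  rw [show 2 * (j + 1) + 1 = 2 * j + 2 + 1 by ring, mul_comm (P (j + 1)), ← hg] at he
  rw [he] at d
  have h2 := S_rec_c 0 (j + 1) j
  have s1 : S 0 (j + 1) (j + 1) = brk (-2/3) (2 * j + 2 + 1 + 1) ((1 + X) * g) := by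
    rw [S, P_zero, one_mul, hg]; ring_nf
  have s2 : J 0 (j + 1) j = brk (-2/3) (2 * j + 2) (Ps (j + 1) * P j) := by
    rw [J, P_zero, one_mul]; ring_nf
  have s3 : jj 0 j = brk (-2/3) (2 * j + 2) (Ps j * P (j + 1)) := by
    rw [jj, J, P_zero, one_mul, zero_add]; ring_nf
  rw [jj, show 0 + (j + 1) + 1 = j + 2 by ring, s3]
  rw [s1, s2] at h2
  linear_combination (-2) * d - h2

/-- boundary, `j = 0` -/
theorem bdi0 (j : ℕ) : ((j : ℚ) + 1 + 2/3) * jj (j + 1) 0 = (j + 1 + 1/3) * jj j 0 + 1/3 := by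
  set g := P (j + 1) * P (j + 1) with hg
  have d := brk_deriv (-2/3) (2 * j + 3) g
  have e : X * derivative g =
      C ((j : ℚ) + 1 + 1/3) * g +
      (X - 1) * (C (((j : ℚ) + 1 + 1/3) / 2) * (P j * P (j + 1)) +
      C (((j : ℚ) + 1 + 1/3) / 2) * (P (j + 1) * P j)) := by
    have c0 : (C ((j : ℚ) + 1 + 1/3) : ℚ[X]) = C (((j : ℚ) + 1 + 1/3) / 2) + C (((j : ℚ) + 1 + 1/3) / 2) := by
      rw [← C_add]; congr 1; ring
    rw [hg, derivative_mul, c0]
    linear_combination (2 * P (j + 1)) * P_D1 j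
  have e2 : C ((-2/3 : ℚ) + 1) * ((X - 1) * g) + (X - 1) * (X * derivative g) -
      C (((2 * j + 3 : ℕ) : ℚ)) * (X * g) =
      C (-((2 * (j : ℚ) + 3)) / 2) * ((1 + X) * g) + (X - 1) * (C (1/6 : ℚ) * g) +
      (X - 1) * ((X - 1) * (C (((j : ℚ) + 1 + 1/3) / 2) * (P j * P (j + 1)) +
      C (((j : ℚ) + 1 + 1/3) / 2) * (P (j + 1) * P j))) := by
    rw [e]
    have c1 : C ((-2/3 : ℚ) + 1) + C ((j : ℚ) + 1 + 1/3)
        = C ((2 * (j : ℚ) + 3) / 2) + C (1/6 : ℚ) := by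
      rw [← C_add, ← C_add]; congr 1; ring
    have c2 : C (((2 * j + 3 : ℕ) : ℚ)) = C ((2 * (j : ℚ) + 3) / 2) +
        C ((2 * (j : ℚ) + 3) / 2) := by
      rw [← C_add]; congr 1; push_cast; ring
    have c3 : (C (-((2 * (j : ℚ) + 3)) / 2) : ℚ[X]) =
        - C ((2 * (j : ℚ) + 3) / 2) := by
      rw [← C_neg]; congr 1; ring
    rw [c2, c3]
    linear_combination ((X - 1) * g) * c1
  have he := bd_f (j + 1)
  rw [e2, map_add, map_add, brk_mul_C, brk_sub_one, brk_mul_C, brk_sub_one,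
    show 2 * j + 3 = (2 * j + 2) + 1 by ring,
    brk_sub_one, map_add, brk_mul_C, brk_mul_C] at d
  rw [show 2 * (j + 1) + 1 = 2 * j + 2 + 1 by ring, ← hg] at he
  rw [he] at d
  have h2 := S_rec_c (j + 1) 0 j
  have s1 : S (j + 1) 0 (j + 1) = brk (-2/3) (2 * j + 2 + 1 + 1) ((1 + X) * g) := by
    rw [S, Ps_zero, mul_one, hg]; ring_nf
  have s2 : J (j + 1) 0 j = brk (-2/3) (2 * j + 2) (P (j + 1) * P j) := by
    rw [J, Ps_zero, mul_one]; ring_nf
  have s3 : jj j 0 = brk (-2/3) (2 * j + 2) (P j * P (j + 1)) := by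
    rw [jj, J, Ps_zero, mul_one, add_zero]; ring_nf
  rw [jj, show (j + 1) + 0 + 1 = j + 2 by ring, s3]
  rw [s1, s2] at h2
  linear_combination (-2) * d - h2

end Pool.Agent.H820R4.CD
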