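import Pool.Agent.H820R4.CD.B

/-!
# Closed form: beta-binomial(1/3,1/3) (helper820)
-/

namespace Pool.Agent.H820R4.CD

open Polynomial Finset

/-- rising factorial `x (x+1) ... (x+n-1)` -/
def asc (x : ℚ) (n : ℕ) : ℚ := ∏ i ∈ range n, (x + i)

/-- beta-binomial(1/3,1/3) weights -/
def w (L k : ℕ) : ℚ := (L.choose k : ℚ) * asc (1/3) k * asc (1/3) (L - k) / asc (2/3) L

/-- distribution function -/
def H (a b : ℕ) : ℚ := ∑ k ∈ range (a + 1), w (a + b + 1) k

theorem asc_succ (x : ℚ) (n : ℕ) : asc x (n + 1) = asc x n * (x + n) := by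
  simp [asc, prod_range_succ]

theorem asc_pos (x : ℚ) (hx : 0 < x) (n : ℕ) : 0 < asc x n :=
  prod_pos fun i _ => by positivity

theorem w_big (L k : ℕ) (h : L < k) : w L k = 0 := by
  simp [w, Nat.choose_eq_zero_of_lt h]

theorem w_zero_zero : w 0 0 = 1 := by simp [w, asc]

theorem w_rec0 (L : ℕ) : ((L : ℚ) + 2/3) * w (L + 1) 0 = (L + 1/3) * w L 0 := by
  have h1 : (asc (2/3) L) ≠ 0 := (asc_pos _ (by norm_num) L).ne'
  have h2 : (2/3 + (L : ℚ)) ≠ 0 := by positivity
  simp only [w, Nat.choose_zero_right, Nat.sub_zero, Nat.cast_one]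
  rw [asc_succ, asc_succ]
  field_simp
  ring

theorem w_rec (L k : ℕ) : ((L : ℚ) + 2/3) * w (L + 1) (k + 1) =
    (k + 1/3) * w L k + (L - (k + 1) + 1/3) * w L (k + 1) := by
  have h1 : (asc (2/3) L) ≠ 0 := (asc_pos _ (by norm_num) L).ne'
  have h2 : (2/3 + (L : ℚ)) ≠ 0 := by positivity
  rcases lt_trichotomy k L with hk | hk | hk
  · obtain ⟨l, rfl⟩ : ∃ l, L = k + (l + 1) := ⟨L - k - 1, by omega⟩
    rw [w, w, w, show k + (l + 1) + 1 - (k + 1) = l + 1 by omega,
      show k + (l + 1) - k = l + 1 by omega, show k + (l + 1) - (k + 1) = l by omega]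
    rw [asc_succ (2/3), asc_succ (1/3) k, asc_succ (1/3) l]
    have hc : (((k + (l + 1) + 1).choose (k + 1) : ℕ) : ℚ) =
        ((k + (l + 1)).choose k : ℕ) + ((k + (l + 1)).choose (k + 1) : ℕ) := by
      rw [Nat.choose_succ_succ]; push_cast; ring
    rw [hc]
    push_cast at h2 ⊢
    field_simp
    ring
  · subst hk
    rw [w, w, w, Nat.choose_self, Nat.choose_self, Nat.sub_self, Nat.sub_self,
      Nat.choose_succ_self, asc_succ, asc_succ]
    have h0 : asc (1/3) 0 = 1 := by simp [asc]
    rw [h0]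
    push_cast
    field_simp
    ring
  · rw [w_big _ _ (by omega : L + 1 < k + 1), w_big _ _ hk, w_big _ _ (by omega : L < k + 1)]
    ring

theorem w_sum (L : ℕ) : ∑ k ∈ range (L + 1), w L k = 1 := by
  induction L with
  | zero => simp [w_zero_zero]
  | succ L ih =>
    have h2 : ((L : ℚ) + 2/3) ≠ 0 := by positivity
    apply mul_left_cancel₀ h2
    rw [mul_one, mul_sum, sum_range_succ']
    rw [w_rec0]
    have : ∑ k ∈ range (L + 1), ((L : ℚ) + 2/3) * w (L + 1) (k + 1) =
        ∑ k ∈ range (L + 1), (k + 1/3) * w L k +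
        ∑ k ∈ range (L + 1), (L - (k + 1) + 1/3) * w L (k + 1) := by
      rw [← sum_add_distrib]; exact sum_congr rfl fun k _ => w_rec L k
    rw [this, add_assoc]
    have e : ∑ k ∈ range (L + 1), ((L : ℚ) - (k + 1) + 1/3) * w L (k + 1) + (L + 1/3) * w L 0 =
        ∑ k ∈ range (L + 2), ((L : ℚ) - k + 1/3) * w L k := by
      rw [sum_range_succ' _ (L + 1)]
      push_cast
      congr 1
      ring
    rw [e, sum_range_succ _ (L + 1), w_big L (L + 1) (by omega), mul_zero, add_zero,
      ← sum_add_distrib]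
    have : ∀ k ∈ range (L + 1), ((k : ℚ) + 1/3) * w L k + ((L : ℚ) - k + 1/3) * w L k =
        (L + 2/3) * w L k := fun k _ => by ring
    rw [sum_congr rfl this, ← mul_sum, ih, mul_one]

theorem w_symm (L k : ℕ) (h : k ≤ L) : w L (L - k) = w L k := by
  rw [w, w, Nat.choose_symm h, Nat.sub_sub_self h]; ring

theorem H_add (a b : ℕ) : H a b + H b a = 1 := by
  have hs := w_sum (a + b + 1)
  rw [show a + b + 1 + 1 = (a + 1) + (b + 1) by ring, sum_range_add] at hs
  rw [← hs, H, H, show b + a + 1 = a + b + 1 by ring]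
  congr 1
  rw [← sum_range_reflect (fun x => w (a + b + 1) (a + 1 + x))]
  refine sum_congr rfl fun k hk => ?_
  have hk' : k < b + 1 := by simpa using hk
  rw [← w_symm _ _ (by omega : k ≤ a + b + 1)]
  congr 1
  omega

/-- partial sum recursion -/
theorem w_psum (L a : ℕ) : ((L : ℚ) + 2/3) * ∑ k ∈ range (a + 1), w (L + 1) k =
    (L + 2/3) * ∑ k ∈ range a, w L k + (L - a + 1/3) * w L a := by
  induction a with
  | zero => simp [w_rec0]
  | succ a ih =>
    rw [sum_range_succ, mul_add, ih, w_rec, sum_range_succ]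
    push_cast
    ring

theorem H_rec (a b : ℕ) : ((a : ℚ) + 1 + (b + 1) + 2/3) * H (a + 1) (b + 1) =
    (a + 1 + 1/3) * H a (b + 1) + (b + 1 + 1/3) * H (a + 1) b := by
  have h := w_psum (a + b + 2) (a + 1)
  rw [H, H, H, show a + 1 + (b + 1) + 1 = a + b + 2 + 1 by ring,
    show a + (b + 1) + 1 = a + b + 2 by ring, show a + 1 + b + 1 = a + b + 2 by ring]
  rw [sum_range_succ (fun k => w (a + b + 2) k) (a + 1)]
  push_cast at h ⊢
  linear_combination h

theorem H_zero (b : ℕ) : ((b : ℚ) + 1 + 2/3) * H 0 (b + 1) = (b + 1 + 1/3) * H 0 b := by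
  have h := w_rec0 (b + 1)
  rw [H, H, zero_add, zero_add, sum_range_one, sum_range_one]
  simp only [zero_add]
  push_cast at h ⊢
  linear_combination h

theorem H_b0 (a : ℕ) : ((a : ℚ) + 1 + 2/3) * H (a + 1) 0 = (a + 1 + 1/3) * H a 0 + 1/3 := by
  have h := H_zero a
  have h1 := H_add (a + 1) 0
  have h2 := H_add a 0
  linear_combination (a + 1 + 2/3 : ℚ) * h1 - (a + 1 + 1/3 : ℚ) * h2 - h

/-- **closed form** -/
theorem jj_eq (i j : ℕ) : jj i j = H i j - H j i := by
  induction i generalizing j with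
  | zero =>
    induction j with
    | zero => rw [jj_zero_zero]; ring
    | succ j ih =>
      have h := bd0j j
      have h1 := H_zero j
      have h2 := H_b0 j
      have hne : ((j : ℚ) + 1 + 2/3) ≠ 0 := by positivity
      apply mul_left_cancel₀ hne
      rw [h, ih]
      linear_combination h2 - h1
  | succ i ihi =>
    induction j with
    | zero =>
      have h := bdi0 i
      have h1 := H_zero i
      have h2 := H_b0 i
      have hne : ((i : ℚ) + 1 + 2/3) ≠ 0 := by positivity
      apply mul_left_cancel₀ hne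
      rw [h, ihi]
      linear_combination h1 - h2
    | succ j ihj =>
      have h := urn i j
      have h1 := H_rec i j
      have h2 := H_rec j i
      have hne : ((i : ℚ) + 1 + (j + 1) + 2/3) ≠ 0 := by positivity
      apply mul_left_cancel₀ hne
      rw [h, ihi, ihj]
      linear_combination h2 - h1

theorem jj_eq' (i j : ℕ) : jj i j = 2 * H i j - 1 := by
  rw [jj_eq]; linear_combination - H_add i j

end Pool.Agent.H820R4.CD
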