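import Pool.Agent.H820R4.CD.C

/-!
# The functional `h ↦ Res_{T=1} T^(-2/3) (T-1)^(-2L) P_L h dT` in closed form (helper820)
-/

namespace Pool.Agent.H820R4.CD

open Polynomial Finset

/-- `(x-n) ∏_{m<2n} (x-m-1/3)(x-m-2/3)` -/
def Phq (n : ℕ) (x : ℚ) : ℚ := (x - n) * ∏ m ∈ range (2 * n), ((x - m - 1/3) * (x - m - 2/3))

noncomputable def PhP (n : ℕ) : ℚ[X] :=
  (X - C (n : ℚ)) * ∏ m ∈ range (2 * n), ((X - C ((m : ℚ) + 1/3)) * (X - C ((m : ℚ) + 2/3)))

theorem eval_PhP (n : ℕ) (x : ℚ) : (PhP n).eval x = Phq n x := by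
  rw [PhP, Phq, eval_mul, eval_prod]
  simp only [eval_mul, eval_sub, eval_X, eval_C]
  congr 1
  exact prod_congr rfl fun m _ => by ring

theorem natDegree_PhP (n : ℕ) : (PhP n).natDegree ≤ 4 * n + 1 := by
  rw [PhP]
  refine natDegree_mul_le.trans ?_
  have h1 : (X - C (n : ℚ) : ℚ[X]).natDegree ≤ 1 := by rw [natDegree_X_sub_C]
  have h2 : (∏ m ∈ range (2 * n), ((X - C ((m : ℚ) + 1/3)) * (X - C ((m : ℚ) + 2/3)))).natDegree ≤
      ∑ m ∈ range (2 * n), 2 := by
    refine (natDegree_prod_le _ _).trans (sum_le_sum fun m _ => ?_)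
    refine natDegree_mul_le.trans ?_
    rw [natDegree_X_sub_C, natDegree_X_sub_C]
  rw [sum_const, card_range, smul_eq_mul] at h2
  omega

/-- `gb (X + k) m` as a polynomial -/
noncomputable def GB (k m : ℕ) : ℚ[X] := ∏ i ∈ range m, ((X + C ((k : ℚ) - i)) * C (1 / ((i : ℚ) + 1)))

theorem eval_GB (k m : ℕ) (x : ℚ) : (GB k m).eval x = gb (k + x) m := by
  rw [GB, gb, eval_prod]
  refine prod_congr rfl fun i _ => ?_
  simp only [eval_mul, eval_add, eval_X, eval_C]
  ring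

theorem natDegree_GB (k m : ℕ) : (GB k m).natDegree ≤ m := by
  rw [GB]
  refine (natDegree_prod_le _ _).trans ?_
  have : ∀ i ∈ range m, ((X + C ((k : ℚ) - i)) * C (1 / ((i : ℚ) + 1))).natDegree ≤ 1 := by
    intro i _
    refine natDegree_mul_le.trans ?_
    rw [natDegree_X_add_C, natDegree_C]
  refine (sum_le_sum this).trans ?_
  simp

/-- `α ↦ brk α (2L) (P L)` as a polynomial in `α` -/
noncomputable def FP (L : ℕ) : ℚ[X] := ∑ k ∈ range (L + 1), C ((P L).coeff k) * GB k (2 * L - 1)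

theorem eval_FP (L : ℕ) (hL : 0 < L) (α : ℚ) : (FP L).eval α = brk α (2 * L) (P L) := by
  rw [FP, eval_finsetSum, brk_eq_sum α (2 * L) (L + 1) (P L) (Nat.lt_succ_of_le (natDegree_P_le L))]
  refine sum_congr rfl fun k _ => ?_
  rw [eval_mul, eval_C, eval_GB]
  obtain ⟨l, rfl⟩ : ∃ l, L = l + 1 := ⟨L - 1, by omega⟩
  rw [show 2 * (l + 1) = (2 * l + 1) + 1 by ring, bc_succ]
  rfl

theorem natDegree_FP (L : ℕ) : (FP L).natDegree ≤ 2 * L - 1 := by
  rw [FP]
  refine natDegree_sum_le_of_forall_le _ _ fun k _ => ?_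
  exact (natDegree_C_mul_le _ _).trans (natDegree_GB _ _)

theorem gb_reflect (x : ℚ) (m : ℕ) : gb x m = (-1) ^ m * gb (m - 1 - x) m := by
  rw [gb, gb, prod_div_distrib, prod_div_distrib, mul_div_assoc']
  congr 1
  rw [← prod_range_reflect (fun i => (m : ℚ) - 1 - x - i)]
  have : ((-1 : ℚ)) ^ m = ∏ i ∈ range m, (-1 : ℚ) := by simp
  rw [this, ← prod_mul_distrib]
  refine prod_congr rfl fun i hi => ?_
  have hi' : i < m := by simpa using hi
  have : ((m - 1 - i : ℕ) : ℚ) = m - 1 - i := by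
    rw [Nat.sub_sub, Nat.cast_sub (by omega)]; push_cast; ring
  rw [this]; ring

/-- zeros at nonnegative integers -/
theorem FP_zero_nat (L r : ℕ) (h : r + 1 < L) : (FP L).eval (r : ℚ) = 0 := by
  rw [eval_FP L (by omega), brk_eq_sum _ (2 * L) (L + 1) (P L) (Nat.lt_succ_of_le (natDegree_P_le L))]
  refine sum_eq_zero fun k hk => ?_
  have hk' : k < L + 1 := by simpa using hk
  obtain ⟨l, rfl⟩ : ∃ l, L = l + 1 := ⟨L - 1, by omega⟩
  rw [show 2 * (l + 1) = (2 * l + 1) + 1 by ring, bc_succ]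
  have : (k : ℚ) + (r : ℚ) = ((k + r : ℕ) : ℚ) := by push_cast; ring
  rw [this, gb_eq_zero _ _ (by omega), mul_zero]

theorem brk_pade (L : ℕ) (α : ℚ) : brk α (2 * L) (P L) = brk (α + 1/3) (2 * L) (Ps L) := by
  have := pade L (2 * L) (by omega) α 1
  simpa using this

theorem FP_zero_third (L r : ℕ) (h : r + 1 < L) : (FP L).eval ((r : ℚ) - 1/3) = 0 := by
  rw [eval_FP L (by omega), brk_pade, sub_add_cancel,
    brk_eq_sum _ (2 * L) (L + 1) (Ps L) (Nat.lt_succ_of_le (natDegree_Ps_le L))]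
  refine sum_eq_zero fun k hk => ?_
  have hk' : k < L + 1 := by simpa using hk
  obtain ⟨l, rfl⟩ : ∃ l, L = l + 1 := ⟨L - 1, by omega⟩
  rw [show 2 * (l + 1) = (2 * l + 1) + 1 by ring, bc_succ]
  have : (k : ℚ) + (r : ℚ) = ((k + r : ℕ) : ℚ) := by push_cast; ring
  rw [this, gb_eq_zero _ _ (by omega), mul_zero]

theorem FP_one (L : ℕ) (hL : 0 < L) : (FP L).eval ((L : ℚ) - 1 - 1/3) = 1 := by
  rw [eval_FP L hL, brk_pade, sub_add_cancel,
    brk_eq_sum _ (2 * L) (L + 1) (Ps L) (Nat.lt_succ_of_le (natDegree_Ps_le L))]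
  obtain ⟨l, rfl⟩ : ∃ l, L = l + 1 := ⟨L - 1, by omega⟩
  rw [sum_eq_single (l + 1)]
  · rw [show 2 * (l + 1) = (2 * l + 1) + 1 by ring, bc_succ, coeff_Ps_top, one_mul]
    have : ((l + 1 : ℕ) : ℚ) + (((l + 1 : ℕ) : ℚ) - 1) = ((2 * l + 1 : ℕ) : ℚ) := by push_cast; ring
    rw [this, gb_self]
  · intro k hk hk0
    have hk' : k < l + 1 + 1 := by simpa using hk
    rw [show 2 * (l + 1) = (2 * l + 1) + 1 by ring, bc_succ]
    have : (k : ℚ) + (((l + 1 : ℕ) : ℚ) - 1) = ((k + l : ℕ) : ℚ) := by push_cast; ring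
    rw [this, gb_eq_zero _ _ (by omega), mul_zero]
  · intro h; simp at h

theorem FP_anti (L : ℕ) (hL : 0 < L) (α : ℚ) : (FP L).eval α = - (FP L).eval ((L : ℚ) - 2 - 1/3 - α) := by
  rw [eval_FP L hL, eval_FP L hL, brk_pade L ((L : ℚ) - 2 - 1/3 - α),
    brk_eq_sum _ (2 * L) (L + 1) (Ps L) (Nat.lt_succ_of_le (natDegree_Ps_le L)),
    brk_eq_sum _ (2 * L) (L + 1) (P L) (Nat.lt_succ_of_le (natDegree_P_le L)),
    ← sum_range_reflect (fun k => (P L).coeff k * bc α (2 * L) k), ← sum_neg_distrib]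
  refine sum_congr rfl fun k hk => ?_
  have hk' : k ≤ L := by simpa [Nat.lt_succ_iff] using hk
  rw [show L + 1 - 1 - k = L - k by omega, coeff_Ps L k hk']
  obtain ⟨l, rfl⟩ : ∃ l, L = l + 1 := ⟨L - 1, by omega⟩
  rw [show 2 * (l + 1) = (2 * l + 1) + 1 by ring, bc_succ, bc_succ, gb_reflect]
  have e : (((2 * l + 1 : ℕ) : ℚ)) - 1 - (((l + 1 - k : ℕ) : ℚ) + α) =
      (k : ℚ) + (((l + 1 : ℕ) : ℚ) - 2 - 1/3 - α + 1/3) := by
    rw [Nat.cast_sub hk']; push_cast; ring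
  rw [e, pow_succ, pow_mul]
  norm_num

theorem FP_mid (n : ℕ) : (FP (2 * n + 1)).eval ((n : ℚ) - 2/3) = 0 := by
  have h := FP_anti (2 * n + 1) (by omega) ((n : ℚ) - 2/3)
  have e : (((2 * n + 1 : ℕ) : ℚ)) - 2 - 1/3 - ((n : ℚ) - 2/3) = (n : ℚ) - 2/3 := by
    push_cast; ring
  rw [e] at h
  linarith

theorem Phq_mid (n : ℕ) : Phq n n = 0 := by simp [Phq]
theorem Phq_third (n m : ℕ) (h : m < 2 * n) : Phq n ((m : ℚ) + 1/3) = 0 := by
  rw [Phq, prod_eq_zero (mem_range.2 h), mul_zero]; ring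
theorem Phq_third2 (n m : ℕ) (h : m < 2 * n) : Phq n ((m : ℚ) + 2/3) = 0 := by
  rw [Phq, prod_eq_zero (mem_range.2 h), mul_zero]; ring

theorem Phq_top_ne (n : ℕ) : Phq n (2 * n + 1/3) ≠ 0 := by
  rw [Phq]
  refine mul_ne_zero ?_ (prod_ne_zero_iff.2 fun m hm => ?_)
  · have : (2 * (n : ℚ) + 1/3 - n) = n + 1/3 := by ring
    rw [this]; positivity
  · have hm' : m < 2 * n := by simpa using hm
    obtain ⟨l, hl⟩ : ∃ l, 2 * n = m + 1 + l := ⟨2 * n - m - 1, by omega⟩
    have h2 : (2 * (n : ℚ)) = m + 1 + l := by exact_mod_cast hl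
    rw [h2]
    have e1 : ((m : ℚ) + 1 + l + 1/3 - m - 1/3) = 1 + l := by ring
    have e2 : ((m : ℚ) + 1 + l + 1/3 - m - 2/3) = 2/3 + l := by ring
    rw [e1, e2]
    positivity

/-- the points of interpolation times 3, in the coordinate `i = α + 2/3` -/
def pts (n : ℕ) : (Fin (2 * n) ⊕ Fin (2 * n)) ⊕ Bool → ℤ
  | Sum.inl (Sum.inl m) => 3 * (m : ℕ) + 1
  | Sum.inl (Sum.inr m) => 3 * (m : ℕ) + 2
  | Sum.inr true => 3 * n
  | Sum.inr false => 6 * n + 1

theorem pts_inj (n : ℕ) : Function.Injective (pts n) := by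
  rintro ((x | x) | (_ | _)) ((y | y) | (_ | _)) h <;> simp only [pts] at h <;>
    first
    | (exfalso; have := x.2; omega)
    | (exfalso; have := y.2; omega)
    | (exfalso; omega)
    | (congr 2; ext; omega)
    | rfl

theorem FP_eq (n : ℕ) (α : ℚ) :
    (FP (2 * n + 1)).eval α * Phq n (2 * n + 1/3) = Phq n (α + 2/3) := by
  have key : FP (2 * n + 1) * C (Phq n (2 * n + 1/3)) = (PhP n).comp (X + C (2/3)) := by
    have hinj : Function.Injective (fun x => ((pts n x : ℤ) : ℚ) / 3 - 2/3) := by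
      intro x y h
      have h1 : ((pts n x : ℤ) : ℚ) = ((pts n y : ℤ) : ℚ) := by
        simp only at h; linarith
      exact pts_inj n (by exact_mod_cast h1)
    refine eq_of_natDegree_lt_card_of_eval_eq _ _ hinj ?_ ?_
    · intro x
      rw [eval_mul, eval_C, eval_comp, eval_add, eval_X, eval_C, sub_add_cancel, eval_PhP]
      rcases x with (x | x) | (_ | _)
      · have e : (((pts n (Sum.inl (Sum.inl x)) : ℤ) : ℚ)) / 3 = ((x : ℕ) : ℚ) + 1/3 := by
          simp only [pts]; push_cast; ring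
        have e2 : ((x : ℕ) : ℚ) + 1/3 - 2/3 = ((x : ℕ) : ℚ) - 1/3 := by ring
        rw [e, Phq_third n x x.2, e2, FP_zero_third (2 * n + 1) x (by have := x.2; omega), zero_mul]
      · have e : (((pts n (Sum.inl (Sum.inr x)) : ℤ) : ℚ)) / 3 = ((x : ℕ) : ℚ) + 2/3 := by
          simp only [pts]; push_cast; ring
        rw [e, Phq_third2 n x x.2, add_sub_cancel_right,
          FP_zero_nat (2 * n + 1) x (by have := x.2; omega), zero_mul]
      · have e : (((pts n (Sum.inr false) : ℤ) : ℚ)) / 3 = 2 * (n : ℚ) + 1/3 := by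
          simp only [pts]; push_cast; ring
        have h1 := FP_one (2 * n + 1) (by omega)
        have e2 : (2 * (n : ℚ) + 1/3) - 2/3 = (((2 * n + 1 : ℕ) : ℚ)) - 1 - 1/3 := by
          push_cast; ring
        rw [e, e2, h1, one_mul]
      · have e : (((pts n (Sum.inr true) : ℤ) : ℚ)) / 3 = (n : ℚ) := by
          simp only [pts]; push_cast; ring
        rw [e, Phq_mid, FP_mid, zero_mul]
    · have h1 : (FP (2 * n + 1) * C (Phq n (2 * n + 1/3))).natDegree ≤ 4 * n + 1 := by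
        refine natDegree_mul_le.trans ?_
        have := natDegree_FP (2 * n + 1)
        rw [natDegree_C]; omega
      have h2 : ((PhP n).comp (X + C (2/3 : ℚ))).natDegree ≤ 4 * n + 1 := by
        rw [natDegree_comp, natDegree_X_add_C, mul_one]
        exact natDegree_PhP n
      have h3 : Fintype.card ((Fin (2 * n) ⊕ Fin (2 * n)) ⊕ Bool) = 4 * n + 2 := by
        simp; omega
      rw [h3]
      exact Nat.lt_succ_of_le (max_le h1 h2)
  have := congrArg (eval α) key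
  rw [eval_mul, eval_C, eval_comp, eval_add, eval_X, eval_C, eval_PhP] at this
  exact this

theorem bc_shift (α : ℚ) (m i k : ℕ) : bc α m (i + k) = bc (α + i) m k := by
  rcases m with _ | m
  · simp
  · rw [bc_succ, bc_succ]; congr 1; push_cast; ring

theorem brk_X_pow_mul (α : ℚ) (m i : ℕ) (h : ℚ[X]) : brk α m (X ^ i * h) = brk (α + i) m h := by
  induction h using Polynomial.induction_on' with
  | add p q hp hq => rw [mul_add, map_add, map_add, hp, hq]
  | monomial n a =>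
    rw [X_pow_mul_monomial, brk_monomial, brk_monomial, add_comm n i, bc_shift]

/-- the functional on monomials -/
theorem ML_X_pow (n i : ℕ) :
    brk (-2/3) (2 * (2 * n + 1)) (X ^ i * P (2 * n + 1)) * Phq n (2 * n + 1/3) = Phq n i := by
  rw [brk_X_pow_mul, ← eval_FP _ (by omega), FP_eq]
  congr 1; ring

/-- the functional on polynomials -/
theorem ML_eq (n N : ℕ) (h : ℚ[X]) (hN : h.natDegree < N) :
    brk (-2/3) (2 * (2 * n + 1)) (h * P (2 * n + 1)) * Phq n (2 * n + 1/3) =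
      ∑ i ∈ range N, h.coeff i * Phq n i := by
  conv_lhs => rw [h.as_sum_range' N hN]
  rw [sum_mul, map_sum, sum_mul]
  refine sum_congr rfl fun i _ => ?_
  rw [← C_mul_X_pow_eq_monomial, mul_assoc, brk_mul_C, mul_assoc, ML_X_pow]

end Pool.Agent.H820R4.CD
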